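import Mathlib
import Pool.Agent.Y676.WP.OneTwo

/-!
# Weil numbers of p-rank one over the prime field, for every prime `p` and every `g ≥ 2`

For every prime `p` and every `g ≥ 2` there is an irreducible Weil `p`-polynomial of degree `2g`
with exactly one unit root such that no power of a root generates a smaller field. By Honda-Tate
theory it is the characteristic polynomial of an absolutely simple abelian variety over `F_p` of
dimension `g` and `p`-rank `1`; so the smallest field of definition for the pair `(g, 1)` is `F_p`.

The polynomials are `X^(2g) + X^(2g-1) ± p X^g + p^(g-1) X + p^g` for `g ≥ 4` and for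
`g = 3`, `p ≥ 3`.
-/

set_option autoImplicit false

namespace Pool.Agent.Results.MP_e32a7e_nt.PRankOne

open Polynomial

/-- For every prime `p` and every `g ≥ 2` there is a monic integer polynomial `P` of degree `2g`,
irreducible over the rationals, all of whose complex roots have absolute value `√p`, whose
coefficients of degree less than `2g - 1` are divisible by `p` while the coefficient of degree
`2g - 1` is not, and such that `ℚ(xⁿ) = ℚ(x)` for every complex root `x` and every `n ≥ 1`. -/
theorem result (p g : ℕ) (hp : p.Prime) (hg : 2 ≤ g) :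
    ∃ P : ℤ[X], P.Monic ∧ P.natDegree = 2 * g ∧ Irreducible (P.map (Int.castRingHom ℚ)) ∧
      (∀ x : ℂ, aeval x P = 0 → ‖x‖ = Real.sqrt p) ∧
      (∀ i < 2 * g - 1, (p : ℤ) ∣ P.coeff i) ∧ ¬ (p : ℤ) ∣ P.coeff (2 * g - 1) ∧
      (∀ x : ℂ, aeval x P = 0 → ∀ n : ℕ, 1 ≤ n →
        IntermediateField.adjoin ℚ {x ^ n} = IntermediateField.adjoin ℚ {x}) :=
  Pool.Agent.Y676.WP.one_final hp hg

end Pool.Agent.Results.MP_e32a7e_nt.PRankOne
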