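import Mathlib
import Pool.Agent.Y676.WP.All

/-!
# Weil numbers of p-rank zero over the prime field, for every prime `p` and every `g ≥ 3`

For every prime `p` and every `g ≥ 3` there is an irreducible Weil `p`-polynomial of degree `2g`
without unit roots such that no power of a root generates a smaller field. By Honda-Tate theory it
is the characteristic polynomial of an absolutely simple abelian variety over `F_p` of dimension
`g` and `p`-rank `0`; so the smallest field of definition for the pair `(g, 0)` is `F_p`.
(There is no simple abelian surface of `p`-rank `0` over the algebraic closure.)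

The polynomials are `X^(2g) + c (X^(g+1) + p X^(g-1)) + p X^g + p^g` with `c = p^2` for `g ≥ 5` and
`c = p` for `g = 3, 4`, except for `(g, p) = (3, 3), (4, 5)`, where two other ones are used.
-/

set_option autoImplicit false

namespace Pool.Agent.Results.MP_e32a7e_nt.PRankZero

open Polynomial

/-- For every prime `p` and every `g ≥ 3` there is a monic integer polynomial `P` of degree `2g`,
irreducible over the rationals, all of whose complex roots have absolute value `√p`, all of whose
coefficients of degree less than `2g` are divisible by `p` while the coefficient of degree `g` is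
not divisible by `p²`, and such that `ℚ(xⁿ) = ℚ(x)` for every complex root `x` and every
`n ≥ 1`. -/
theorem result (p g : ℕ) (hp : p.Prime) (hg : 3 ≤ g) :
    ∃ P : ℤ[X], P.Monic ∧ P.natDegree = 2 * g ∧ Irreducible (P.map (Int.castRingHom ℚ)) ∧
      (∀ x : ℂ, aeval x P = 0 → ‖x‖ = Real.sqrt p) ∧
      (∀ i < 2 * g, (p : ℤ) ∣ P.coeff i) ∧ ¬ (p : ℤ) ^ 2 ∣ P.coeff g ∧
      (∀ x : ℂ, aeval x P = 0 → ∀ n : ℕ, 1 ≤ n →
        IntermediateField.adjoin ℚ {x ^ n} = IntermediateField.adjoin ℚ {x}) :=
  Pool.Agent.Y676.WP.all hp hg

end Pool.Agent.Results.MP_e32a7e_nt.PRankZero
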